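import Pool.Agent.Q54.ZR.Stm

set_option autoImplicit false

namespace Pool.Agent.Q54.ZR

open Finset

/-- Either two disjoint unequal pairs or constant off one element. -/
theorem pairs_or_const {V : Type} [DecidableEq V] (W : Finset V) (h : V → ZMod 3)
    (hW : 4 ≤ W.card) :
    (∃ p ∈ W, ∃ p' ∈ W, ∃ q ∈ W, ∃ q' ∈ W, [p, p', q, q'].Nodup ∧ h p ≠ h p' ∧ h q ≠ h q') ∨
    (∃ p ∈ W, ∃ k : ZMod 3, ∀ y ∈ W.erase p, h y = k) := by
  by_cases hconst : ∃ p ∈ W, ∃ p' ∈ W, h p ≠ h p'
  · obtain ⟨p, hp, p', hp', hne⟩ := hconst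
    have hpp : p ≠ p' := fun e => hne (by rw [e])
    by_cases h2 : ∃ q ∈ (W.erase p).erase p', ∃ q' ∈ (W.erase p).erase p', h q ≠ h q'
    · obtain ⟨q, hq, q', hq', hne'⟩ := h2
      simp only [Finset.mem_erase] at hq hq'
      left
      refine ⟨p, hp, p', hp', q, hq.2.2, q', hq'.2.2, ?_, hne, hne'⟩
      have hqq : q ≠ q' := fun e => hne' (by rw [e])
      simp only [List.nodup_cons, List.mem_cons, List.not_mem_nil, or_false, not_or, not_false_eq_true, List.nodup_nil, and_true]
      exact ⟨⟨hpp, Ne.symm hq.2.1, Ne.symm hq'.2.1⟩, ⟨Ne.symm hq.1, Ne.symm hq'.1⟩, hqq⟩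
    · push Not at h2
      have hcard : 2 ≤ ((W.erase p).erase p').card := by
        rw [Finset.card_erase_of_mem (Finset.mem_erase.mpr ⟨Ne.symm hpp, hp'⟩),
          Finset.card_erase_of_mem hp]; omega
      obtain ⟨r1, hr1, r2, hr2, hr⟩ := Finset.one_lt_card.mp (show 1 < ((W.erase p).erase p').card by omega)
      have m1 := hr1; have m2 := hr2
      simp only [Finset.mem_erase] at m1 m2
      by_cases hk : h p = h r1
      · right
        refine ⟨p', hp', h r1, ?_⟩
        intro y hy
        simp only [Finset.mem_erase] at hy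
        by_cases hyp : y = p
        · rw [hyp, hk]
        · exact h2 y (by simp only [Finset.mem_erase]; exact ⟨hy.1, hyp, hy.2⟩) r1 hr1
      · by_cases hk' : h p' = h r1
        · right
          refine ⟨p, hp, h r1, ?_⟩
          intro y hy
          simp only [Finset.mem_erase] at hy
          by_cases hyp : y = p'
          · rw [hyp, hk']
          · exact h2 y (by simp only [Finset.mem_erase]; exact ⟨hyp, hy.1, hy.2⟩) r1 hr1
        · left
          refine ⟨p, hp, r1, m1.2.2, p', hp', r2, m2.2.2, ?_, hk, ?_⟩
          · simp only [List.nodup_cons, List.mem_cons, List.not_mem_nil, or_false, not_or, not_false_eq_true, List.nodup_nil, and_true]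
            exact ⟨⟨Ne.symm m1.2.1, hpp, Ne.symm m2.2.1⟩, ⟨m1.1, hr⟩, Ne.symm m2.1⟩
          · rw [h2 r2 hr2 r1 hr1]; exact hk'
  · push Not at hconst
    right
    obtain ⟨p, hp⟩ := Finset.card_pos.mp (show 0 < W.card by omega)
    exact ⟨p, hp, h p, fun y hy => hconst y (Finset.mem_of_mem_erase hy) p hp⟩

theorem S_addOn {α V : Type} [Fintype α] [DecidableEq α] (G : SimpleGraph α) [DecidableRel G.Adj]
    (c : V → V → ZMod 3) (W : Finset V) (h : V → ZMod 3) (hadd : AddOn c W h)
    (φ : α → V) (hφ : Function.Injective φ) (hW : ∀ a, φ a ∈ W) :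
    S G c φ = ∑ a, (∑ b, if G.Adj a b then (1 : ZMod 3) else 0) * h (φ a) := by
  have h1 : ∀ a b, (if G.Adj a b then c (φ a) (φ b) else 0) =
      (if G.Adj a b then h (φ a) else 0) + (if G.Adj a b then h (φ b) else 0) := by
    intro a b
    by_cases hab : G.Adj a b
    · simp only [hab, if_true]
      exact hadd _ (hW a) _ (hW b) (fun e => G.loopless.irrefl a (by rw [← hφ e] at hab; exact hab))
    · simp [hab]
  have h2 : ∑ a, ∑ b, (if G.Adj a b then h (φ b) else 0) =
      ∑ a, ∑ b, (if G.Adj a b then h (φ a) else 0) := by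
    rw [Finset.sum_comm]
    apply Finset.sum_congr rfl; intro a _
    apply Finset.sum_congr rfl; intro b _
    simp only [G.adj_comm]
  have h3 : ∑ a, ∑ b, (if G.Adj a b then h (φ a) else 0) =
      ∑ a, (∑ b, if G.Adj a b then (1 : ZMod 3) else 0) * h (φ a) := by
    apply Finset.sum_congr rfl; intro a _
    rw [Finset.sum_mul]
    apply Finset.sum_congr rfl; intro b _
    split_ifs <;> simp
  unfold S
  simp only [h1, Finset.sum_add_distrib, h2, h3]
  have h4 : (2 : ZMod 3) * 2 = 1 := by decide
  linear_combination (∑ a, (∑ b, if G.Adj a b then (1 : ZMod 3) else 0) * h (φ a)) * h4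

theorem four_vals : ∀ w e f : ZMod 3, e ≠ 0 → f ≠ 0 →
    w = 0 ∨ w + e = 0 ∨ w + f = 0 ∨ w + e + f = 0 := by decide

theorem egz : S_EXT → S_EGZ := by
  intro hext α V _ _ _ G _ c W h hc hdeg hadd hcard
  set d : α → ZMod 3 := fun a => ∑ b, if G.Adj a b then (1 : ZMod 3) else 0 with hd
  have hsum : ∑ a, d a = 0 := hdeg
  have hS := fun φ hφ hW => S_addOn G c W h hadd φ hφ hW
  by_cases hall : ∀ a, d a = 0
  · obtain ⟨φ, hφ, -, h2⟩ := hext α V ∅ (fun a => (Finset.card_pos.mp (show 0 < W.card by omega)).choose)
      W (by simp) (by simp) (by simp; omega)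
    refine ⟨φ, hφ, fun a => h2 a (by simp), ?_⟩
    rw [hS φ hφ (fun a => h2 a (by simp))]
    apply Finset.sum_eq_zero; intro a _
    have : (∑ b, if G.Adj a b then (1 : ZMod 3) else 0) = 0 := hall a
    rw [this, zero_mul]
  · push Not at hall
    obtain ⟨u, hu⟩ := hall
    have hv : ∃ v, v ≠ u ∧ d v ≠ 0 := by
      by_contra hcon
      push Not at hcon
      rw [Finset.sum_eq_single u (fun b _ hb => hcon b hb) (fun hh => absurd (mem_univ u) hh)] at hsum
      exact hu hsum
    obtain ⟨v, hvu, hv⟩ := hv
    have hn : 2 ≤ Fintype.card α := by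
      have := Finset.card_le_univ ({u, v} : Finset α)
      rw [Finset.card_pair (Ne.symm hvu)] at this
      exact this
    rcases pairs_or_const W h (by omega) with ⟨p, hp, p', hp', q, hq, q', hq', hnd, hne1, hne2⟩ |
      ⟨p, hp, k, hk⟩
    · simp only [List.nodup_cons, List.mem_cons, List.not_mem_nil, or_false, not_or, not_false_eq_true, List.nodup_nil, and_true] at hnd
      obtain ⟨⟨hpp, hpq, hpq'⟩, ⟨hp'q, hp'q'⟩, hqq⟩ := hnd
      set R : Finset V := (((W.erase p).erase p').erase q).erase q' with hRdef
      have hRc : R.card + 4 = W.card := by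
        rw [hRdef, Finset.card_erase_of_mem, Finset.card_erase_of_mem, Finset.card_erase_of_mem,
          Finset.card_erase_of_mem hp]
        · omega
        · simp only [Finset.mem_erase]; exact ⟨Ne.symm hpp, hp'⟩
        · simp only [Finset.mem_erase]; exact ⟨Ne.symm hp'q, Ne.symm hpq, hq⟩
        · simp only [Finset.mem_erase]; exact ⟨Ne.symm hqq, Ne.symm hp'q', Ne.symm hpq', hq'⟩
      obtain ⟨φ, hφ, h1, h2⟩ := hext α V {u, v} (fun a => if a = u then p else q) R
        (by
          intro a ha b hb hab
          simp only [Finset.coe_insert, Finset.coe_singleton, Set.mem_insert_iff, Set.mem_singleton_iff] at ha hb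
          rcases ha with rfl | rfl <;> rcases hb with rfl | rfl
          · rfl
          · simp only [if_true, hvu, if_false] at hab; exact absurd hab hpq
          · simp only [if_true, hvu, if_false] at hab; exact absurd hab.symm hpq
          · rfl)
        (by
          intro a ha
          simp only [Finset.mem_insert, Finset.mem_singleton] at ha
          rcases ha with rfl | rfl
          · simp [hRdef]
          · simp [hvu, hRdef])
        (by rw [Finset.card_pair (Ne.symm hvu)]; omega)
      have hφu : φ u = p := by rw [h1 u (by simp)]; simp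
      have hφv : φ v = q := by rw [h1 v (by simp)]; simp [hvu]
      have hRsub : ∀ a, a ≠ u → a ≠ v → φ a ∈ R := fun a ha hb => h2 a (by simp [ha, hb])
      -- the modified maps
      have key : ∀ X Y : V, (X = p ∨ X = p') → (Y = q ∨ Y = q') →
          ∃ ψ : α → V, Function.Injective ψ ∧ (∀ a, ψ a ∈ W) ∧
            S G c ψ = (∑ a ∈ (univ.erase u).erase v, d a * h (φ a)) + d u * h X + d v * h Y := by
        intro X Y hX hY
        have hXW : X ∈ W := by rcases hX with rfl | rfl <;> assumption
        have hYW : Y ∈ W := by rcases hY with rfl | rfl <;> assumption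
        have hXY : X ≠ Y := by
          rcases hX with rfl | rfl <;> rcases hY with rfl | rfl <;> assumption
        have hXR : X ∉ R := by rcases hX with rfl | rfl <;> simp [hRdef]
        have hYR : Y ∉ R := by rcases hY with rfl | rfl <;> simp [hRdef]
        let ψ : α → V := fun a => if a = u then X else if a = v then Y else φ a
        have ψu : ψ u = X := by simp [ψ]
        have ψv : ψ v = Y := by simp [ψ, hvu]
        have ψo : ∀ a, a ≠ u → a ≠ v → ψ a = φ a := by intro a ha hb; simp [ψ, ha, hb]
        have hψ : Function.Injective ψ := by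
          intro a b hab
          by_cases hau : a = u
          · by_cases hbu : b = u
            · rw [hau, hbu]
            · rw [hau, ψu] at hab
              by_cases hbv : b = v
              · rw [hbv, ψv] at hab; exact absurd hab hXY
              · rw [ψo b hbu hbv] at hab; exact absurd (hab ▸ hRsub b hbu hbv) hXR
          · by_cases hav : a = v
            · rw [hav, ψv] at hab
              by_cases hbu : b = u
              · rw [hbu, ψu] at hab; exact absurd hab.symm hXY
              · by_cases hbv : b = v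
                · rw [hav, hbv]
                · rw [ψo b hbu hbv] at hab; exact absurd (hab ▸ hRsub b hbu hbv) hYR
            · rw [ψo a hau hav] at hab
              by_cases hbu : b = u
              · rw [hbu, ψu] at hab; exact absurd (hab ▸ hRsub a hau hav) hXR
              · by_cases hbv : b = v
                · rw [hbv, ψv] at hab; exact absurd (hab ▸ hRsub a hau hav) hYR
                · rw [ψo b hbu hbv] at hab; exact hφ hab
        have hψW : ∀ a, ψ a ∈ W := by
          intro a
          by_cases hau : a = u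
          · rw [hau, ψu]; exact hXW
          · by_cases hav : a = v
            · rw [hav, ψv]; exact hYW
            · rw [ψo a hau hav]
              have := hRsub a hau hav
              rw [hRdef] at this
              simp only [Finset.mem_erase] at this
              exact this.2.2.2.2
        refine ⟨ψ, hψ, hψW, ?_⟩
        rw [hS ψ hψ hψW, ← Finset.sum_erase_add _ _ (mem_univ u),
          ← Finset.sum_erase_add (s := univ.erase u) (a := v) _ (by simp [hvu]), ψu, ψv]
        have : ∑ x ∈ (univ.erase u).erase v, (∑ b, if G.Adj x b then (1 : ZMod 3) else 0) * h (ψ x)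
            = ∑ a ∈ (univ.erase u).erase v, d a * h (φ a) := by
          apply Finset.sum_congr rfl
          intro a ha
          simp only [Finset.mem_erase] at ha
          rw [ψo a ha.2.1 ha.1]
        rw [this]; ring
      set K := ∑ a ∈ (univ.erase u).erase v, d a * h (φ a)
      have hE : d u * (h p' - h p) ≠ 0 := mul_ne_zero hu (sub_ne_zero.mpr (Ne.symm hne1))
      have hF : d v * (h q' - h q) ≠ 0 := mul_ne_zero hv (sub_ne_zero.mpr (Ne.symm hne2))
      rcases four_vals (K + d u * h p + d v * h q) _ _ hE hF with h0 | h0 | h0 | h0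
      · obtain ⟨ψ, h1, h2, h3⟩ := key p q (Or.inl rfl) (Or.inl rfl)
        exact ⟨ψ, h1, h2, by rw [h3, ← h0]⟩
      · obtain ⟨ψ, h1, h2, h3⟩ := key p' q (Or.inr rfl) (Or.inl rfl)
        exact ⟨ψ, h1, h2, by rw [h3, ← h0]; ring⟩
      · obtain ⟨ψ, h1, h2, h3⟩ := key p q' (Or.inl rfl) (Or.inr rfl)
        exact ⟨ψ, h1, h2, by rw [h3, ← h0]; ring⟩
      · obtain ⟨ψ, h1, h2, h3⟩ := key p' q' (Or.inr rfl) (Or.inr rfl)
        exact ⟨ψ, h1, h2, by rw [h3, ← h0]; ring⟩
    · obtain ⟨φ, hφ, -, h2⟩ := hext α V ∅ (fun a => p) (W.erase p) (by simp) (by simp)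
        (by rw [Finset.card_erase_of_mem hp]; simp; omega)
      have hφW : ∀ a, φ a ∈ W := fun a => Finset.mem_of_mem_erase (h2 a (by simp))
      refine ⟨φ, hφ, hφW, ?_⟩
      rw [hS φ hφ hφW]
      have : ∀ a, (∑ b, if G.Adj a b then (1 : ZMod 3) else 0) * h (φ a) = d a * k := by
        intro a; rw [hk _ (h2 a (by simp))]
      rw [Finset.sum_congr rfl (fun a _ => this a), ← Finset.sum_mul, hsum, zero_mul]

end Pool.Agent.Q54.ZR
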