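import Pool.Agent.Q54.ZR.Stm

set_option autoImplicit false

namespace Pool.Agent.Q54.ZR

open Finset

theorem S_update {α V : Type} [Fintype α] [DecidableEq α] (G : SimpleGraph α) [DecidableRel G.Adj]
    (c : V → V → ZMod 3) (hc : IsSym c) (φ : α → V) (a : α) (x : V) :
    S G c (Function.update φ a x) =
      2 * (∑ i ∈ univ.erase a, ∑ j ∈ univ.erase a, if G.Adj i j then c (φ i) (φ j) else 0)
      + ∑ b, if G.Adj a b then c x (φ b) else 0 := by
  have h1 : ∀ i, i ≠ a → ∑ j, (if G.Adj i j then
      c (Function.update φ a x i) (Function.update φ a x j) else 0) =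
      (∑ j ∈ univ.erase a, if G.Adj i j then c (φ i) (φ j) else 0)
        + (if G.Adj i a then c (φ i) x else 0) := by
    intro i hi
    rw [← Finset.sum_erase_add _ _ (mem_univ a)]
    congr 1
    · apply Finset.sum_congr rfl
      intro j hj
      have hj' : j ≠ a := (Finset.mem_erase.mp hj).1
      simp [Function.update_of_ne hi, Function.update_of_ne hj']
    · simp [Function.update_of_ne hi]
  have h2 : ∑ j, (if G.Adj a j then
      c (Function.update φ a x a) (Function.update φ a x j) else 0) =
      ∑ j, if G.Adj a j then c x (φ j) else 0 := by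
    apply Finset.sum_congr rfl
    intro j _
    by_cases hj : G.Adj a j
    · have hj' : j ≠ a := fun h => G.loopless.irrefl a (h ▸ hj)
      simp [Function.update_of_ne hj']
    · simp [hj]
  have h3 : ∑ i ∈ univ.erase a, (if G.Adj i a then c (φ i) x else 0) =
      ∑ j, if G.Adj a j then c x (φ j) else 0 := by
    rw [← Finset.sum_erase_add (s := univ) (a := a) _ (mem_univ a)]
    have : ¬ G.Adj a a := G.loopless.irrefl a
    simp only [this, if_false, add_zero]
    apply Finset.sum_congr rfl
    intro i _
    by_cases hi : G.Adj a i
    · simp [hi, hi.symm, hc (φ i) x]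
    · have : ¬ G.Adj i a := fun h => hi h.symm
      simp [hi, this]
  unfold S
  rw [← Finset.sum_erase_add _ _ (mem_univ a), h2]
  rw [Finset.sum_congr rfl (fun i hi => h1 i (Finset.mem_erase.mp hi).1)]
  rw [Finset.sum_add_distrib, h3]
  have h4 : (2 : ZMod 3) * 2 = 1 := by decide
  linear_combination (∑ j, if G.Adj a j then c x (φ j) else 0) * h4

theorem fd : S_FD := by
  intro α V _ _ G _ c hc φ a x x'
  rw [S_update G c hc, S_update G c hc]
  have : ∀ b, (if G.Adj a b then c x (φ b) - c x' (φ b) else 0)
      = (if G.Adj a b then c x (φ b) else 0) - (if G.Adj a b then c x' (φ b) else 0) := by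
    intro b; split_ifs <;> simp
  simp only [this, Finset.sum_sub_distrib]
  ring

theorem sd : S_FD → S_SD := by
  intro hfd α V _ _ G _ c hc φ a b hab x x' y y'
  have e1 : ∀ u v : V, Function.update (Function.update φ a u) b v
      = Function.update (Function.update φ b v) a u := fun u v =>
    Function.update_comm hab u v φ
  have h1 := hfd α V G c hc (Function.update φ b y) a x x'
  have h2 := hfd α V G c hc (Function.update φ b y') a x x'
  rw [e1, e1, e1, e1]
  have h3 : (∑ b_1, if G.Adj a b_1 then c x (Function.update φ b y b_1) - c x' (Function.update φ b y b_1) else 0)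
      - (∑ b_1, if G.Adj a b_1 then c x (Function.update φ b y' b_1) - c x' (Function.update φ b y' b_1) else 0)
      = if G.Adj a b then br c x x' y y' else 0 := by
    rw [← Finset.sum_sub_distrib, Finset.sum_eq_single b]
    · by_cases h : G.Adj a b
      · simp only [h, if_true, Function.update_self]; unfold br; ring
      · simp [h]
    · intro j _ hj
      simp [Function.update_of_ne hj]
    · intro h; exact absurd (mem_univ b) h
  linear_combination h1 - h2 + h3

end Pool.Agent.Q54.ZR
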