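import Pool.Agent.Q54.ZR.Ext
import Pool.Agent.Q54.ZR.FD
import Pool.Agent.Q54.ZR.Egz
import Pool.Agent.Q190.ZR.C1
import Pool.Agent.Q190.ZR.PP
import Pool.Agent.Q190.ZR.C2
import Pool.Agent.Q25.ZR.STAR
import Pool.Agent.Q25.ZR.FIT
import Pool.Agent.Q25.ZR.RED
import Pool.Agent.Q96.ZR.Haf
import Pool.Agent.Q222.ZR.KC
import Pool.Agent.Q222.ZR.KR
import Pool.Agent.Q222.ZR.KTOP
import Pool.Agent.Q222.ZR.K3U
import Pool.Agent.Q222.ZR.K3L
import Pool.Agent.Q217.ZR.CORE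
import Pool.Agent.Q231.ZR.BRI
import Pool.Agent.Q231.ZR.FINAL

/-!
# Project ZR (helper54): assembly

Lemmas proved by helper54 (FD, SD, EXT, ADD, EGZ), helper190 (C1, PP, C2), helper25 (STAR, FI, FT,
RED), helper96 (HAF, K2), helper222 (KC, KR, KTOP, K3U, K3L), helper217 (CORE), helper231 (BRI,
FINAL).
-/

set_option autoImplicit false

namespace Pool.Agent.Q54.ZR

open Pool.Agent

theorem all_fd : S_FD := Q54.ZR.fd
theorem all_sd : S_SD := Q54.ZR.sd all_fd
theorem all_ext : S_EXT := Q54.ZR.ext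
theorem all_add : S_ADD := Q54.ZR.add
theorem all_egz : S_EGZ := Q54.ZR.egz all_ext
theorem all_c1 : S_C1 := Q190.ZR.c1 all_add all_egz all_sd all_ext
theorem all_pp : S_PP := Q190.ZR.pp all_sd all_ext
theorem all_c2 : S_C2 := Q190.ZR.c2
theorem all_star : S_STAR := Q25.ZR.star all_ext
theorem all_fi : S_FI := Q25.ZR.fi
theorem all_ft : S_FT := Q25.ZR.ft
theorem all_haf : S_HAF := Q96.ZR.haf all_fi
theorem all_k2 : S_K2 := Q96.ZR.k2 all_fi
theorem all_kc : S_KC := Q222.ZR.kc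
theorem all_kr : S_KR := Q222.ZR.kr all_fi
theorem all_ktop : S_KTOP := Q222.ZR.ktop all_add all_egz all_ft all_haf all_k2 all_kc all_kr
theorem all_k3u : S_K3U := Q222.ZR.k3u
theorem all_k3l : S_K3L := Q222.ZR.k3l
theorem all_core : S_CORE :=
  Q217.ZR.core all_add all_egz all_ft all_c1 all_pp all_c2 all_star all_ktop
theorem all_red : S_RED := Q25.ZR.RED.red all_ext all_core all_k3u
theorem all_bri : S_BRI := Q231.ZR.bri
theorem all_final : S_FINAL := Q231.ZR.final all_red all_bri all_k3u all_k3l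

end Pool.Agent.Q54.ZR
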