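import Mathlib

/-!
# Project ZR (helper54): zero-sum Ramsey numbers over Z_3, problem MP_2da030_co

Target: for every finite graph G with 3 | e(G) on n vertices, R(G, Z_3) <= n + 7 unless
G = K_3, and R(K_3, Z_3) = 11.

Definitions used by all the statements of the project.
`c : V → V → ZMod 3` is the colouring, always with `IsSym c`; a copy of G is an injective
map `φ : α → V`; `S G c φ` is its weight.
-/

set_option autoImplicit false

namespace Pool.Agent.Q54.ZR

open Finset

/-- The weight of the map `φ`: twice the sum of `c (φ a) (φ b)` over all ordered pairs `(a, b)`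
of adjacent vertices. Since `2 * 2 = 1` in `ZMod 3`, for symmetric `c` this is the sum of
`c` over the images of the edges of `G`. -/
def S {α V : Type} [Fintype α] (G : SimpleGraph α) [DecidableRel G.Adj]
    (c : V → V → ZMod 3) (φ : α → V) : ZMod 3 :=
  2 * ∑ a, ∑ b, if G.Adj a b then c (φ a) (φ b) else 0

/-- The bracket of the pair `(x, x')` against the pair `(z, z')`. For symmetric `c` one has
`br c x x' z z' = br c z z' x x'`, and exchanging `x` and `x'` changes the sign. -/
def br {V : Type} (c : V → V → ZMod 3) (x x' z z' : V) : ZMod 3 :=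
  c x z - c x' z - c x z' + c x' z'

/-- `c` is symmetric. -/
def IsSym {V : Type} (c : V → V → ZMod 3) : Prop := ∀ x y, c x y = c y x

/-- No copy of `G` has weight zero. -/
def NZ {α V : Type} [Fintype α] (G : SimpleGraph α) [DecidableRel G.Adj]
    (c : V → V → ZMod 3) : Prop :=
  ∀ φ : α → V, Function.Injective φ → S G c φ ≠ 0

/-- All brackets of four different elements of `W` vanish. -/
def Flat {V : Type} (c : V → V → ZMod 3) (W : Finset V) : Prop :=
  ∀ x ∈ W, ∀ x' ∈ W, ∀ z ∈ W, ∀ z' ∈ W, [x, x', z, z'].Nodup → br c x x' z z' = 0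

/-- `c x y = h x + h y` for different elements `x, y` of `W`. -/
def AddOn {V : Type} (c : V → V → ZMod 3) (W : Finset V) (h : V → ZMod 3) : Prop :=
  ∀ x ∈ W, ∀ y ∈ W, x ≠ y → c x y = h x + h y

/-- The sum of the degrees is zero modulo three; equivalently `3 ∣ e(G)`. -/
def Deg3 {α : Type} [Fintype α] (G : SimpleGraph α) [DecidableRel G.Adj] : Prop :=
  ∑ a, ∑ b, (if G.Adj a b then (1 : ZMod 3) else 0) = 0

/-- The weight of the complete graph on the vertex set `s`. -/
def F {V : Type} [DecidableEq V] (c : V → V → ZMod 3) (s : Finset V) : ZMod 3 :=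
  2 * ∑ x ∈ s, ∑ y ∈ s.erase x, c x y

/-- No `n`-element subset of `W` has weight zero. -/
def NZF {V : Type} [DecidableEq V] (c : V → V → ZMod 3) (W : Finset V) (n : ℕ) : Prop :=
  ∀ s : Finset V, s ⊆ W → s.card = n → F c s ≠ 0

/-- The property of the colouring that is used for complete multipartite graphs. -/
def PP {V : Type} (c : V → V → ZMod 3) : Prop :=
  ∀ x x' z z' y y' t t' : V, [x, x', z, z', y, y', t, t'].Nodup →
    br c x x' z z' ≠ 0 → br c y y' t t' ≠ 0 →
      br c x x' t t' ≠ 0 ∧
      ∀ r r' : V, [x, x', z, z', y, y', t, t', r, r'].Nodup → br c x x' r r' = 0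

theorem br_symm {V : Type} {c : V → V → ZMod 3} (hc : IsSym c) (x x' z z' : V) :
    br c x x' z z' = br c z z' x x' := by
  unfold br
  rw [hc x z, hc x' z, hc x z', hc x' z']; ring

theorem br_swap_left {V : Type} (c : V → V → ZMod 3) (x x' z z' : V) :
    br c x' x z z' = - br c x x' z z' := by
  unfold br; ring

theorem br_swap_right {V : Type} (c : V → V → ZMod 3) (x x' z z' : V) :
    br c x x' z' z = - br c x x' z z' := by
  unfold br; ring

end Pool.Agent.Q54.ZR
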