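import Pool.Agent.Q54.ZR.Stm

set_option autoImplicit false

namespace Pool.Agent.Q54.ZR

open Finset

theorem ext : S_EXT := by
  intro α V _ _ _ A φ0 R hinj hR hcard
  have h1 : (Aᶜ).card ≤ R.card := by
    rw [Finset.card_compl]; omega
  obtain ⟨T, hTR, hT⟩ := Finset.exists_subset_card_eq h1
  have e : (Aᶜ : Finset α) ≃ T := Finset.equivOfCardEq hT.symm
  classical
  refine ⟨fun a => if h : a ∈ A then φ0 a else (e ⟨a, Finset.mem_compl.mpr h⟩ : V), ?_, ?_, ?_⟩
  · intro a b hab
    by_cases ha : a ∈ A <;> by_cases hb : b ∈ A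
    · simp only [ha, hb, dif_pos] at hab
      exact hinj ha hb hab
    · simp only [ha, hb, dif_pos, dif_neg, not_false_eq_true] at hab
      exact absurd (hab ▸ hTR (e _).2) (hR a ha)
    · simp only [ha, hb, dif_pos, dif_neg, not_false_eq_true] at hab
      exact absurd (hab ▸ hTR (e _).2) (hR b hb)
    · simp only [ha, hb, dif_neg, not_false_eq_true] at hab
      have := e.injective (Subtype.ext hab)
      exact congrArg Subtype.val this
  · intro a ha
    simp [ha]
  · intro a ha
    simp only [ha, dif_neg, not_false_eq_true]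
    exact hTR (e _).2

theorem add : S_ADD := by
  intro V _ c W hc hW hflat
  obtain ⟨a, b, d, ha, hb, hd, hab, had, hbd⟩ := Finset.two_lt_card_iff.mp (show 2 < W.card by omega)
  have four : (2 : ZMod 3) * 2 = 1 := by decide
  have h3 : (3 : ZMod 3) = 0 := by decide
  let h : V → ZMod 3 := fun x => if x = a then 2 * (c a b + c a d - c b d)
    else c a x - 2 * (c a b + c a d - c b d)
  have hha : h a = 2 * (c a b + c a d - c b d) := by simp [h]
  have hh : ∀ x, x ≠ a → h x = c a x - h a := by
    intro x hx; simp [h, hx]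
  have E1 : ∀ x, x ≠ a → c a x = h a + h x := by
    intro x hx; rw [hh x hx]; ring
  have E2 : c b d = h b + h d := by
    rw [hh b (Ne.symm hab), hh d (Ne.symm had), hha]
    linear_combination (-1 : ZMod 3) * (c a b + c a d - c b d) * h3 + (-1: ZMod 3) * 0
      + (2 * (c a b + c a d - c b d)) * h3 - (c a b + c a d - c b d) * four * 0
  -- for x outside {a,b,d}: c b x
  have E3 : ∀ x ∈ W, x ≠ a → x ≠ b → c b x = h b + h x := by
    intro x hx hxa hxb
    by_cases hxd : x = d
    · rw [hxd]; exact E2
    have := hflat a ha b hb x hx d hd (by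
      simp only [List.nodup_cons, List.mem_cons, List.not_mem_nil, or_false, not_or, not_false_eq_true, List.nodup_nil, and_true]
      exact ⟨⟨hab, Ne.symm hxa, had⟩, ⟨Ne.symm hxb, hbd⟩, hxd⟩)
    unfold br at this
    rw [hh b (Ne.symm hab), hh x hxa]
    have e2 := E2
    rw [hh b (Ne.symm hab), hh d (Ne.symm had)] at e2
    linear_combination (-1 : ZMod 3) * this + e2
  have main : ∀ x ∈ W, ∀ y ∈ W, x ≠ y → c x y = h x + h y := by
    intro x hx y hy hxy
    by_cases hxa : x = a
    · rw [hxa]; exact E1 y (fun h => hxy (by rw [hxa, h]))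
    by_cases hya : y = a
    · rw [hya, hc x a, E1 x hxa]; ring
    by_cases hxb : x = b
    · rw [hxb]; exact E3 y hy hya (fun h => hxy (by rw [hxb, h]))
    by_cases hyb : y = b
    · rw [hyb, hc x b, E3 x hx hxa hxb]; ring
    have := hflat a ha x hx y hy b hb (by
      simp only [List.nodup_cons, List.mem_cons, List.not_mem_nil, or_false, not_or, not_false_eq_true, List.nodup_nil, and_true]
      exact ⟨⟨Ne.symm hxa, Ne.symm hya, hab⟩, ⟨hxy, hxb⟩, hyb⟩)
    unfold br at this
    rw [E1 y hya, E1 b (Ne.symm hab), hc x b, E3 x hx hxa hxb] at this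
    linear_combination (-1 : ZMod 3) * this
  exact ⟨h, main⟩

end Pool.Agent.Q54.ZR
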