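import Pool.Agent.Q54.ZR.Def

/-!
# Project ZR: the statements, with complete proofs in the docstrings

Throughout: `ZMod 3`, so `2 * 2 = 1`, `-2 = 1`; an element `≠ 0` has square `1`;
finite facts about elements of `ZMod 3` are proved by `decide` (revert everything first).
-/

set_option autoImplicit false

namespace Pool.Agent.Q54.ZR

open Finset

/-- FIRST DIFFERENCE. Only the terms with first or second argument `a` change when the value
at `a` is changed; each neighbour `b` of `a` contributes `2 * (c x (φ b) + c (φ b) x) =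
4 * c x (φ b) = c x (φ b)`. (`b ≠ a` for a neighbour, so `φ b` is not changed.) -/
def S_FD : Prop :=
  ∀ (α V : Type) [Fintype α] [DecidableEq α] (G : SimpleGraph α) [DecidableRel G.Adj]
    (c : V → V → ZMod 3), IsSym c → ∀ (φ : α → V) (a : α) (x x' : V),
    S G c (Function.update φ a x) - S G c (Function.update φ a x') =
      ∑ b, if G.Adj a b then c x (φ b) - c x' (φ b) else 0

/-- SECOND DIFFERENCE. Apply S_FD at `a` for the maps `update φ b y` and `update φ b y'`
(the updates at `a ≠ b` commute: `Function.update_comm`) and subtract: all terms cancel except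
the one for the neighbour `b` (if `b` is a neighbour of `a`), which gives
`c x y - c x' y - (c x y' - c x' y')`. -/
def S_SD : Prop :=
  ∀ (α V : Type) [Fintype α] [DecidableEq α] (G : SimpleGraph α) [DecidableRel G.Adj]
    (c : V → V → ZMod 3), IsSym c → ∀ (φ : α → V) (a b : α), a ≠ b → ∀ (x x' y y' : V),
    S G c (Function.update (Function.update φ a x) b y)
      - S G c (Function.update (Function.update φ a x') b y)
      - S G c (Function.update (Function.update φ a x) b y')
      + S G c (Function.update (Function.update φ a x') b y') =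
      if G.Adj a b then br c x x' y y' else 0

/-- EXTENSION. An injective assignment on the set `A` of positions can be extended to an
injective map which sends all other positions into `R`, if `R` avoids the values on `A` and
there is enough room (`Aᶜ` has at most `R.card` elements, choose an injection `Aᶜ → R`). -/
def S_EXT : Prop :=
  ∀ (α V : Type) [Fintype α] [DecidableEq α] [DecidableEq V] (A : Finset α) (φ0 : α → V)
    (R : Finset V), Set.InjOn φ0 (A : Set α) → (∀ a ∈ A, φ0 a ∉ R) →
    Fintype.card α ≤ A.card + R.card →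
    ∃ φ : α → V, Function.Injective φ ∧ (∀ a ∈ A, φ a = φ0 a) ∧ ∀ a, a ∉ A → φ a ∈ R

/-- FLAT IMPLIES ADDITIVE. Choose three different elements `a, b, d` of `W`. Put
`h a = 2 * (c a b + c a d - c b d)` (this is half of the sum), and `h x = c a x - h a` for
`x ≠ a`. For `x, y` different from each other: if one of them is `a` this is the definition
(and symmetry). `c b d`: `h b + h d = c a b + c a d - 2 h a = c a b + c a d - (c a b + c a d
- c b d) = c b d`, as `2 * 2 = 1`. For `x ∉ {a, b, d}`: `br c a b x d = 0` says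
`c a x - c b x - c a d + c b d = 0`, so `c b x = c a x - c a d + c b d = h b + h x`. In the
same way (exchange `b` and `d`) `c d x = h d + h x`. For `x ≠ y` both not in `{a, b}`: `br c a x y b
= 0` says `c a y - c x y - c a b + c x b = 0`, so `c x y = c a y - c a b + c x b =
h y + h a - h a - h b + h x + h b = h x + h y`. -/
def S_ADD : Prop :=
  ∀ (V : Type) [DecidableEq V] (c : V → V → ZMod 3) (W : Finset V), IsSym c →
    3 ≤ W.card → Flat c W → ∃ h : V → ZMod 3, AddOn c W h

/-- ADDITIVE COLOURINGS HAVE ZERO-SUM COPIES. For an injective `φ` with values in `W`,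
`S G c φ = 2 * ∑_a ∑_{b ~ a} (h (φ a) + h (φ b)) = ∑_a deg(a) * h (φ a)` (as `2 * 2 = 1`).
Let `d a = ∑ b, if Adj a b then 1 else 0` in `ZMod 3`; `∑ d a = 0`.
(1) If all `d a = 0`, every injective `φ` into `W` works (it exists by cardinality).
(2) Otherwise there are `u ≠ v` with `d u ≠ 0`, `d v ≠ 0` (exactly one nonzero term is
impossible since the sum is zero).
(2a) Suppose there are four different elements `p, p', q, q'` of `W` with `h p ≠ h p'` and
`h q ≠ h q'`. Map the other positions injectively into `W` minus these four (card `≥ n - 2`),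
`u` to `p` or `p'` and `v` to `q` or `q'`. The four weights are `w, w + e, w + f, w + e + f`
with `e = d u * (h p' - h p) ≠ 0` and `f = d v * (h q' - h q) ≠ 0`; one of them is zero
(finite check: for all `w` and all `e, f ≠ 0` one of `w, w+e, w+f, w+e+f` is `0`).
(2b) Otherwise `h` is constant on `W` minus one element. If `h` is not constant
on `W`, take `p, p' ∈ W` with `h p ≠ h p'`. By assumption `h` is constant on
`W \ {p, p'}`, with value `k`. This set has at least `n ≥ 2` elements `r1 ≠ r2` (`n ≥ 2` since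
`u ≠ v`). If `h p ≠ k` and `h p' ≠ k` then `p, r1, p', r2` contradict the assumption. So `h`
is constant on `W \ {p}` or on `W \ {p'}`. Map the positions injectively into this
set (card `≥ n + 1`); then `S = k * ∑ d a = 0`. -/
def S_EGZ : Prop :=
  ∀ (α V : Type) [Fintype α] [DecidableEq α] [DecidableEq V] (G : SimpleGraph α)
    [DecidableRel G.Adj] (c : V → V → ZMod 3) (W : Finset V) (h : V → ZMod 3), IsSym c →
    Deg3 G → AddOn c W h → Fintype.card α + 2 ≤ W.card →
    ∃ φ : α → V, Function.Injective φ ∧ (∀ a, φ a ∈ W) ∧ S G c φ = 0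

/-- CASE I. Two non-adjacent vertices `u ≠ v` with `w1 ∈ N(u) \ N(v)` and `w2 ∈ N(v)`.
Note that `u, v, w1, w2` are four different vertices (`w1 ≠ w2` since `v ~ w2`, `v ≁ w1`;
`w1 ≠ v` since `u ≁ v`; `w2 ≠ u` for the same reason). Let `n = card α`.
If `c` is flat on the whole of `V`: use S_ADD and S_EGZ with `W = univ`. Otherwise there are
different `x, x', z, z'` with `br c x x' z z' ≠ 0`. If `c` is flat on
`W = univ \ {x, x', z, z'}` (card `≥ n + 3`): use S_ADD and S_EGZ. Otherwise there are different
`y, y', t, t'` outside `{x, x', z, z'}` with `br c y y' t t' ≠ 0`. Suppose for a contradiction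
that no injective map has weight 0. By S_EXT choose an injective `φ` with `φ u = x`,
`φ w1 = z`, `φ v = y`, `φ w2 = t` and all other values outside the eight elements. For
`X ∈ {x, x'}`, `Z ∈ {z, z'}`, `Y ∈ {y, y'}`, `T ∈ {t, t'}` let `s X Z Y T` be the weight of
the map obtained from `φ` by changing the values at `u, w1, v, w2` to `X, Z, Y, T` (it is
injective, so all weights are nonzero). By S_SD (the other two coordinates fixed):
 * in the coordinates `u, w1` the second difference is `b1 = br c x x' z z' ≠ 0`;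
 * in the coordinates `v, w2` it is `b2 = br c y y' t t' ≠ 0`;
 * in the coordinates `u, v` it is `0`; in the coordinates `v, w1` it is `0`.
Let `D T = s X Z y' T - s X Z y T`: by the last line it does not depend on `X, Z`, and
`D t' - D t ≠ 0`, so there is `T` with `D T ≠ 0`. Fix this `T` and let
`E Z = s x' Z Y T - s x Z Y T`, which does not depend on `Y`; `E z' - E z ≠ 0`, so there is
`Z` with `E Z ≠ 0`. Then the four numbers `s X Z Y T` (`X`, `Y` vary) are `w, w + e, w + f, w + e + f`
with `e, f ≠ 0` and one of them is zero, contradiction. -/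
def S_C1 : Prop :=
  ∀ (α V : Type) [Fintype α] [DecidableEq α] [Fintype V] [DecidableEq V] (G : SimpleGraph α)
    [DecidableRel G.Adj] (c : V → V → ZMod 3), IsSym c → Deg3 G →
    Fintype.card α + 6 ≤ Fintype.card V →
    ∀ u v w1 w2 : α, u ≠ v → ¬ G.Adj u v → G.Adj u w1 → ¬ G.Adj v w1 → G.Adj v w2 →
    ∃ φ : α → V, Function.Injective φ ∧ S G c φ = 0

/-- PROPERTY PP for graphs in which two non-adjacent vertices `u, v` have the two common
neighbours `w1 ≠ w2` and there is a fifth vertex `m` which is either adjacent to both `u`, `v`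
(case A), or non-adjacent to `u` and `v` and adjacent to `w1` and `w2` (case B).

Proof. It suffices to prove, for all different `x, x', z, z', y, y', t, t'` with
`b1 = br c x x' z z' ≠ 0` and `b2 = br c y y' t t' ≠ 0`:
 (i) `br c x x' t t' ≠ 0`;
 (ii) for all different `r, r'` outside of the eight: in case A `br c x x' r r' = 0`; in
 case B `br c z z' r r' = 0` (in case B apply (ii) with the roles of `(x, x')` and
 `(z, z')` exchanged, `br_symm`, to get PP).
Let `n = card α`. Fix `r ≠ r'` outside of the eight (if there are any; for (i) such a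
pair exists by cardinality: `card V - 8 ≥ n - 3 ≥ 2`, and is not needed). By S_EXT there is an
injective `φ` with `φ u = x`, `φ w1 = z`, `φ v = y`, `φ w2 = t`, `φ m = r` and all other values
outside of the eight and of `{r, r'}` (there are `n - 5` other positions and
`card V - 10 ≥ n - 5` elements). For `R ∈ {r, r'}` and
`X, Z, Y, T` as in S_C1 let `s R X Z Y T` be the weight of the map obtained
by changing the values at `m, u, w1, v, w2` to `R, X, Z, Y, T`; all these maps are
injective, so all weights are nonzero. Second differences (S_SD): `(u, w1)`: `b1`;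
`(v, w2)`: `b2`; `(u, w2)`: `e1 = br c x x' t t'`; `(v, w1)`: `e2 = br c y y' z z'`; `(u, v)`: `0`;
in case A `(u, m)`: `br c x x' r r'` and `(v, m)`: `br c y y' r r'`; in case B `(u, m)` and
`(v, m)`: `0`, `(w1, m)`: `br c z z' r r'`, `(w2, m)`: `br c t t' r r'`.
For fixed `R` put `P k l = s R x' Z_k Y T_l - s R x Z_k Y T_l` (independent of `Y`),
`Q k l = s R X Z_k y' T_l - s R X Z_k y T_l` (independent of `X`), where `Z_0 = z`,
`Z_1 = z'`, `T_0 = t`, `T_1 = t'`. Up to sign conventions `P k l = p + b1 k + e1 l` and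
`Q k l = q + e2 k + b2 l` with `p = P 0 0`, `q = Q 0 0`. As in S_C1, for all
`k, l` one of `P k l`, `Q k l` is zero (otherwise one of the four weights is zero). So
`p q = 0`, `(p + b1)(q + e2) = 0`, `(p + e1)(q + b2) = 0`, `(p + b1 + e1)(q + e2 + b2) = 0`
with `b1, b2 ≠ 0`. A finite check over `ZMod 3` gives: `e1 ≠ 0`, `e2 ≠ 0`, and
`p = 0` if `e1 = -b1` and `p = -b1` if `e1 = b1`; in the same way `q` is determined by
`e2` and `b2`; moreover for each `(k, l)` EXACTLY one of `P k l`, `Q k l` is zero. This
proves (i), and shows that `p` and `q` (hence all `P k l`, `Q k l`) are the same for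
`R = r` and for `R = r'`.
Case A: `p(r') - p(r)` is up to sign the second difference in `(u, m)`, so
`br c x x' r r' = 0`.
Case B: for each `(k, l)` the weight `w = s R x Z_k y T_l` is determined by `P k l`
and `Q k l`: if `P = 0`, `Q ≠ 0` then `w ≠ 0` and `w + Q ≠ 0` give `w = Q`; if `Q = 0`, `P ≠ 0`
then `w = P`. So `s r x Z_k y T_l = s r' x Z_k y T_l` for all `k, l`, and the second
difference in `(w1, m)` is zero: `br c z z' r r' = 0`. -/
def S_PP : Prop :=
  ∀ (α V : Type) [Fintype α] [DecidableEq α] [Fintype V] [DecidableEq V] (G : SimpleGraph α)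
    [DecidableRel G.Adj] (c : V → V → ZMod 3), IsSym c →
    Fintype.card α + 5 ≤ Fintype.card V → NZ G c →
    ∀ u v w1 w2 m : α, [u, v, w1, w2, m].Nodup → ¬ G.Adj u v → G.Adj u w1 → G.Adj u w2 →
    G.Adj v w1 → G.Adj v w2 →
    ((G.Adj u m ∧ G.Adj v m) ∨ (¬ G.Adj u m ∧ ¬ G.Adj v m ∧ G.Adj w1 m ∧ G.Adj w2 m)) → PP c

/-- FROM PP TO A FLAT SET. If `c` is flat on `univ`, take `W = univ`. Otherwise
take different `x, x', z, z'` with `br c x x' z z' ≠ 0`. If `c` is flat on
`univ \ {x, x', z, z'}` (card `n + 3`), take this set. Otherwise there are different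
`y, y', t, t'` outside of `{x, x', z, z'}` with `br c y y' t t' ≠ 0`.
Let `θ ρ = c y ρ - c y' ρ`, so `br c y y' ρ ρ' = θ ρ - θ ρ'`. PP for the pair
`(y, y', t, t')`, `(z, z', x, x')` (note `br c z z' x x' ≠ 0` by symmetry) gives
`θ x ≠ θ x'`, and `θ r = θ r'` for all `r ≠ r'` in `R = univ \ {the eight}`
(card `n - 1 ≥ 4`). Let `θ0` be the value of `θ` on `R` and let `p ∈ {x, x'}` with
`θ p ≠ θ0`. Let `W = univ \ {y, y', t, t', p}`, card `n + 2`. Claim: `c` is flat on `W`.
Suppose `Q = {a, a', b, b'} ⊆ W`, different, with `br c a a' b b' ≠ 0`. PP for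
`(y, y', t, t')`, `(a, a', b, b')` gives `θ ρ = θ ρ'` for all `ρ, ρ'` outside
`Q ∪ {y, y', t, t'}`. If `Q` meets neither `x` nor `x'` we get `θ x = θ x'`, contradiction.
So `Q` contains `x` or `x'`, hence at most three elements of `R`, and there is
`r ∈ R \ Q`. Then `θ p = θ r = θ0`, contradiction (`p ∉ Q`). -/
def S_C2 : Prop :=
  ∀ (V : Type) [Fintype V] [DecidableEq V] (c : V → V → ZMod 3) (n : ℕ), IsSym c → 5 ≤ n →
    Fintype.card V = n + 7 → PP c → ∃ W : Finset V, n + 2 ≤ W.card ∧ Flat c W

/-- STARS. `G` is the star with centre `w`. Then `Deg3 G` says `2 (n - 1) = 0` in `ZMod 3`,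
where `n = card α`, so `3 ∣ n - 1`. If `n = 1` there are no edges and any map works. Otherwise
`n ≥ 4`. Take any `z : V` and let `h y = c z y`. `S G c φ = ∑_{a ≠ w} h (φ a)` if `φ w = z`.
We need `n - 1` different elements of `univ \ {z}` (card `≥ n + 1`) with `∑ h = 0`. If there
are four different elements `p, p', q, q'` there with `h p ≠ h p'`, `h q ≠ h q'`: take `n - 3`
others and one of each pair, four sums `w, w + e, w + f, w + e + f`, one is zero. Otherwise `h`
is constant on `univ \ {z}` minus one element (see S_EGZ (2b)) and the sum is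
`(n - 1) * k = 0`. -/
def S_STAR : Prop :=
  ∀ (α V : Type) [Fintype α] [DecidableEq α] [Fintype V] [DecidableEq V] (G : SimpleGraph α)
    [DecidableRel G.Adj] (c : V → V → ZMod 3) (w : α), IsSym c → Deg3 G →
    (∀ a b : α, G.Adj a b ↔ (a = w ∧ b ≠ w) ∨ (b = w ∧ a ≠ w)) →
    Fintype.card α + 2 ≤ Fintype.card V →
    ∃ φ : α → V, Function.Injective φ ∧ S G c φ = 0

/-- WEIGHT OF A COMPLETE GRAPH: adding one vertex. `F c (insert x s) = 2 * (2 * ∑ y ∈ s, c x y)
+ F c s`. -/
def S_FI : Prop :=
  ∀ (V : Type) [DecidableEq V] (c : V → V → ZMod 3) (s : Finset V) (x : V), IsSym c → x ∉ s →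
    F c (insert x s) = F c s + ∑ y ∈ s, c x y

/-- For injective `φ` the weight `S ⊤ c φ` is `F` of the image. -/
def S_FT : Prop :=
  ∀ (α V : Type) [Fintype α] [DecidableEq α] [DecidableEq V] (c : V → V → ZMod 3) (φ : α → V),
    Function.Injective φ → S (⊤ : SimpleGraph α) c φ = F c (univ.image φ)

/-- HAFNIAN. Choose a set `B` of `n - 4` elements outside of the eight. For `ε ∈ {0, 1}^4` let
`s ε = F c (B ∪ {x1 or x1', x2 or x2', x3 or x3', x4 or x4'})`. By S_FI used four times
`s ε = c0 + ∑ αi εi + ∑_{i<j} βij εi εj`, where `βij` is the bracket of the pairs `i` and `j`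
(write everything out: the sums over `B` give a constant and a term for each `i`).
All `s ε ≠ 0`, so `s ε ^ 2 = 1` (16 equations). The alternating sum
`∑ (-1)^{|ε|} s ε ^ 2` is `2 * (β12 β34 + β13 β24 + β14 β23)` as a polynomial identity
(`linear_combination`), and it is `0` because `∑ (-1)^{|ε|} = 0`. -/
def S_HAF : Prop :=
  ∀ (V : Type) [Fintype V] [DecidableEq V] (c : V → V → ZMod 3) (n : ℕ), IsSym c → 4 ≤ n →
    n + 4 ≤ Fintype.card V → NZF c univ n →
    ∀ x1 x1' x2 x2' x3 x3' x4 x4' : V, [x1, x1', x2, x2', x3, x3', x4, x4'].Nodup →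
      br c x1 x1' x2 x2' * br c x3 x3' x4 x4' + br c x1 x1' x3 x3' * br c x2 x2' x4 x4'
        + br c x1 x1' x4 x4' * br c x2 x2' x3 x3' = 0

/-- TWO PAIRS. For a set `B` with `n - 2` elements outside of `{x1, x1', x2, x2'}` the four
weights of `B ∪ {x1 or x1', x2 or x2'}` are `w, w + a1, w + a2, w + a1 + a2 + b` with
`a1 = ∑ y ∈ B, (c x1' y - c x1 y) + (c x1' x2 - c x1 x2)`,
`a2 = ∑ y ∈ B, (c x2' y - c x2 y) + (c x1 x2' - c x1 x2)` and
`b = br c x1 x1' x2 x2'` (S_FI). All are nonzero. Finite check: if `b ≠ 0` then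
`a1 = b ↔ a2 = b`. -/
def S_K2 : Prop :=
  ∀ (V : Type) [Fintype V] [DecidableEq V] (c : V → V → ZMod 3) (n : ℕ), IsSym c →
    NZF c univ n →
    ∀ x1 x1' x2 x2' : V, [x1, x1', x2, x2'].Nodup → br c x1 x1' x2 x2' ≠ 0 →
    ∀ B : Finset V, B.card + 2 = n → x1 ∉ B → x1' ∉ B → x2 ∉ B → x2' ∉ B →
      (∑ y ∈ B, (c x1' y - c x1 y) + (c x1' x2 - c x1 x2) = br c x1 x1' x2 x2' ↔
        ∑ y ∈ B, (c x2' y - c x2 y) + (c x1 x2' - c x1 x2) = br c x1 x1' x2 x2')

/-- CLASSIFICATION of two functions `g1, g2` on a set `U` of `n + 3` elements for which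
`k1 + ∑ B g1 = 0 ↔ k2 + ∑ B g2 = 0` for all `B ⊆ U` with `n - 2` elements (`n ≥ 4`). Write
`w1 B = k1 + ∑ B g1`, `w2 B = k2 + ∑ B g2`.

Lemma A: if `y ≠ y'` in `U`, `g1 y = g1 y'` and `g2 y ≠ g2 y'`, then `g2 e = g2 e'` for all
`e, e' ∈ U \ {y, y'}`. Proof: let `e ≠ e'`, choose `E ⊆ U \ {y, y'}` with `n - 3 ≥ 1` elements,
`e ∈ E`, `e' ∉ E` (possible: `U \ {y, y'}` has `n + 1` elements). Let `B = E ∪ {y}`,
`B' = E ∪ {y'}`. `w1 B = w1 B'` and `w2 B - w2 B' = g2 y - g2 y' ≠ 0`. If `w1 B = 0` then
`w2 B = 0 = w2 B'`, contradiction. So `w2 B`, `w2 B'` are both nonzero and their difference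
`δ = g2 y - g2 y'` is nonzero, which determines `w2 B' = δ` (finite check: `a + δ ≠ 0`, `a ≠ 0`,
`δ ≠ 0` imply `a = δ`). The same holds for `E' = E \ {e} ∪ {e'}`, so `g2 e = g2 e'`.
Lemma B: the same with the roles of `g1` and `g2` exchanged.

Case 1: `g1 y = g1 y' ↔ g2 y = g2 y'` for all `y, y' ∈ U`. Then there are `σ ≠ 0` and `τ` with
`g2 y = σ * g1 y + τ` on `U`: if `g1` is constant on `U` then so is `g2`, take `σ = 1`.
Otherwise take `y0, y1 ∈ U` with `g1 y0 ≠ g1 y1`, `σ = (g2 y1 - g2 y0) * (g1 y1 - g1 y0)`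
(the product equals the quotient, as squares of nonzero elements are `1`), `τ = g2 y0 - σ * g1 y0`; the
formula at a third element `y` is a finite check with the hypothesis for the three pairs.

Case 2: not case 1; by symmetry of the statement in `(g1, k1)`, `(g2, k2)` there are
`y, y' ∈ U` with `g1 y = g1 y'` and `g2 y ≠ g2 y'`. By Lemma A `g2 = q` on `U \ {y, y'}`. If
`g2 y = q` or `g2 y' = q` then `g2` is constant on `U` minus one element, done. So suppose
`g2 y ≠ q` and `g2 y' ≠ q`. For `o ∈ U \ {y, y'}` we have `g1 o ≠ g1 y`: otherwise Lemma A for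
`(y, o)` (`g2 y ≠ q = g2 o`) gives that `g2` is constant on `U \ {y, o}`, which contains `y'` and
elements of `U \ {y, y', o}`, so `g2 y' = q`, contradiction. Let `B ⊆ U \ {y, y'}` with `n - 2`
elements, and `o ∈ B`. Put `A0 = w1 B`, `B0 = w2 B`, `s = g2 y - q`, `s' = g2 y' - q`;
`s, s'` are the two different nonzero elements. With `d = g1 y - g1 o ≠ 0`: exchanging `o` for
`y` gives `(A0 + d = 0 ↔ B0 + s = 0)`, exchanging `o` for `y'` gives
`(A0 + d = 0 ↔ B0 + s' = 0)`, and `(A0 = 0 ↔ B0 = 0)`. So `B0 + s` and `B0 + s'` are both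
zero or both nonzero, hence both nonzero, and `B0 = 0`, `A0 = 0`. This holds for all such `B`,
so `g1` is constant on `U \ {y, y'}` (exchange one element; `n + 1 > n - 2 ≥ 1`). Finally take
`o1 ≠ o2 ∈ B` (`n - 2 ≥ 2`) and exchange `o1, o2` for `y, y'`: `w1 = 0 + 2 d`,
`w2 = 0 + s + s' = 0`, so `2 d = 0`, contradiction. -/
def S_KC : Prop :=
  ∀ (V : Type) [DecidableEq V] (n : ℕ) (U : Finset V) (g1 g2 : V → ZMod 3) (k1 k2 : ZMod 3),
    4 ≤ n → U.card = n + 3 →
    (∀ B : Finset V, B ⊆ U → B.card + 2 = n →
      (k1 + ∑ y ∈ B, g1 y = 0 ↔ k2 + ∑ y ∈ B, g2 y = 0)) →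
    (∃ p ∈ U, ∃ q : ZMod 3, (∀ y ∈ U.erase p, g1 y = q) ∨ (∀ y ∈ U.erase p, g2 y = q)) ∨
    (∃ σ τ : ZMod 3, σ ≠ 0 ∧ ∀ y ∈ U, g2 y = σ * g1 y + τ)

/-- RANK ONE. `U` has `n + 3` elements, `c x y = h x + h y + l * g x * g y` on `U`, `l ≠ 0`,
`n (n - 1) = 0` in `ZMod 3`. Suppose no `n`-subset of `U` has weight zero.
For `s ⊆ U` with `n` elements `F c s = (n - 1) ∑ h + 2 l (G² - ∑ g²)` with `G = ∑ s g`, so
`F c s = - l * G ^ 2 + ∑ y ∈ s, m y`, where `m y = (n - 1) * h y + l * (g y) ^ 2` (as
`2 = -1`).
Step 1. Suppose there are no three disjoint unequal pairs in `U` (pair: two different elements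
of `U`; unequal: `g` differs). Then `g` is constant on `U` minus at most two elements: take a
maximum family of disjoint unequal pairs (0, 1 or 2 pairs, at most 4 elements); on the remaining
`≥ n - 1 ≥ 3` elements `g` is constant, `= k`. If in some pair both values are `≠ k` then
replace this pair `(y, y')` by `(y, r), (y', r')` with remaining `r ≠ r'`, a larger family,
contradiction. So all but at most two elements (one for each pair) have
`g = k`. Choose `p` such that all elements of `U \ {p}` but at most one have `g = k`. For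
`x ≠ y` in `U \ {p}` then `(g x - k) (g y - k) = 0`, that is `g x g y = k g x + k g y - k²`,
so `c x y = h' x + h' y` with `h' x = h x + l * k * g x + l * k ^ 2` (`2 * l * k ^ 2 =
- l * k ^ 2`). This is the second alternative.
Step 2. Suppose `(x1, x1'), (x2, x2'), (x3, x3')` are disjoint unequal pairs, ordered so
that `g xi' - g xi = 1`. Let `B` be the set of the remaining `n - 3` elements of `U`. For
`ε ∈ {0,1}^3` let `S ε = B ∪ {x1 or x1', x2 or x2', x3 or x3'}`. With `G` the sum of `g` over
`S 0` we get from the formula above `F c (S ε) = c0 + a1 ε1 + a2 ε2 + a3 ε3 +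
l (ε1 ε2 + ε1 ε3 + ε2 ε3)` with `ai = l * G - l + (m xi' - m xi)` (since `-l ((G+t)² - G²) =
-2 l G t - l t² = l G t - l t²` and `- l t² = - l t - 2 l (t choose 2) = - l t + l (t choose 2)`
for `t = ε1 + ε2 + ε3`). All eight values are nonzero. Finite check (`l ≠ 0`): `a1 = a2 = a3`.
So `m xi' - m xi` is the same number `σ` for `i = 1, 2, 3`. For pairs ordered arbitrarily this
says `m xi' - m xi = σ * (g xi' - g xi)`. Let `μ y = m y - σ * g y`; then `μ xi = μ xi'`.
Step 3. `μ` is constant on `U`. For `i ≠ j`: one of the re-pairings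
`(xi, xj), (xi', xj')` and `(xi, xj'), (xi', xj)` consists of two unequal pairs (if `g xi = g xj`
or `g xi' = g xj'` then the second one does). Together with the third pair it is a family
of three disjoint unequal pairs, with some common slope, which is `σ` because of the third
pair. So `μ xi = μ xj` or `μ xi = μ xj'`. So `μ` is constant on the six elements. If
`y` is another element of `U`, then `g y ≠ g x1` or `g y ≠ g x1'`; replace the first pair by
`(y, x1)` or `(y, x1')`: again the slope is `σ` and `μ y = μ x1`. So `m y = σ * g y + τ` on `U`.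
Step 4. For every `a : ZMod 3` there is `s ⊆ U` with `n` elements and `∑ s g = a`: take
`n - 2` elements outside of `x1, x1', x2, x2'` and one of each pair: the sums are
`w, w + 1, w + 2` among others (when ordered). If `n = 0` in `ZMod 3` choose `s` with `G = 0`:
`F c s = - l * 0 + σ * 0 + n τ = 0`. If `n = 1` in `ZMod 3` then `m y = l * (g y) ^ 2`. Take
any `y0 ∈ U`, `a = g y0`, `s` with `G = a`: `F c s = - l a² + σ a + τ = - l a² + m y0 = 0`.
This contradicts the assumption. -/
def S_KR : Prop :=
  ∀ (V : Type) [DecidableEq V] (c : V → V → ZMod 3) (n : ℕ) (U : Finset V)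
    (h g : V → ZMod 3) (l : ZMod 3), IsSym c → 4 ≤ n → U.card = n + 3 →
    (n : ZMod 3) * ((n : ZMod 3) - 1) = 0 → l ≠ 0 →
    (∀ x ∈ U, ∀ y ∈ U, x ≠ y → c x y = h x + h y + l * g x * g y) →
    (∃ s : Finset V, s ⊆ U ∧ s.card = n ∧ F c s = 0) ∨
    (∃ p ∈ U, ∃ h' : V → ZMod 3, AddOn c (U.erase p) h')

/-- COMPLETE GRAPHS. Suppose no `n`-subset has weight zero (`NZF c univ n`); via S_FT this is
`NZ ⊤ c` for the complete graph on `Fin n`. `Deg3 (⊤ : SimpleGraph (Fin n))` is
`n (n - 1) = 0` in `ZMod 3`. So by S_EGZ (for `⊤` on `Fin n`) there is NO set `W` with at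
least `n + 2` elements and `AddOn c W h` for some `h` (*), and by S_ADD no `W` with
`Flat c W` and at least `n + 2` elements. So there are different `x1, x1', x2, x2'` with
`b = br c x1 x1' x2 x2' ≠ 0`. Let `U = univ \ {x1, x1', x2, x2'}`, card `n + 3`.
Put `g1 y = c x1' y - c x1 y`, `g2 y = c x2' y - c x2 y`. For different `y, y', z, z' ∈ U`:
`br c x1 x1' y y' = c x1 y - c x1' y - c x1 y' + c x1' y' = g1 y' - g1 y`, and so on. By
S_HAF (`x3, x3', x4, x4' = y, y', z, z'`):
`b * br c y y' z z' + (g1 y' - g1 y) (g2 z' - g2 z) + (g1 z' - g1 z) (g2 y' - g2 y) = 0`. Let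
`c' y z = c y z + b * (g1 y * g2 z + g1 z * g2 y)`; it is symmetric, and since `b * b = 1`
and `br (c') y y' z z' = br c y y' z z' + b ((g1 y - g1 y') (g2 z - g2 z') + (g1 z - g1 z')
(g2 y - g2 y')) = 0` it is flat on `U`. By S_ADD `c' y z = h0 y + h0 z` on `U`:
`c y z = h0 y + h0 z - b * (g1 y * g2 z + g1 z * g2 y)`.
S_K2 gives for all `B ⊆ U` with `n - 2` elements `(k1 + ∑ B g1 = 0 ↔ k2 + ∑ B g2 = 0)` with
`k1 = (c x1' x2 - c x1 x2) - b`, `k2 = (c x1 x2' - c x1 x2) - b`. Apply S_KC.
First alternative, say `g1 = q` on `U \ {p}`: there `c y z = h0 y + h0 z - b q (g2 y + g2 z)`, so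
`AddOn c (U.erase p) (fun y => h0 y - b * q * g2 y)`, contradiction to (*) (card `n + 2`).
The case `g2 = q` is the same. Second alternative `g2 y = σ g1 y + τ`: `c y z = h0 y + h0 z -
b (g1 y (σ g1 z + τ) + g1 z (σ g1 y + τ)) = h y + h z + l * g1 y * g1 z` with
`h y = h0 y - b * τ * g1 y` and `l = -2 b σ = b σ ≠ 0`. Apply S_KR: the first
alternative contradicts the assumption, the second contradicts (*). -/
def S_KTOP : Prop :=
  ∀ (V : Type) [Fintype V] [DecidableEq V] (c : V → V → ZMod 3) (n : ℕ), IsSym c → 4 ≤ n →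
    Fintype.card V = n + 7 → (n : ZMod 3) * ((n : ZMod 3) - 1) = 0 →
    ∃ s : Finset V, s.card = n ∧ F c s = 0

/-- ELEVEN VERTICES. Every symmetric `c` on at least eleven vertices has a zero-sum triangle.
Restrict to a set `V` of exactly eleven vertices and suppose not. For different `x, y, z` the sum
`c x y + c y z + c x z` is `0` in `ZMod 3` iff the three colours are all equal or all
different; so no triangle is monochromatic and no triangle is rainbow. Let
`N i v = {y ≠ v | c v y = i}`; `|N 0 v| + |N 1 v| + |N 2 v| = 10`. Let `i, j, k` always be the three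
different colours in some order.
(a) A set `W` in which a colour `i` does not occur has at most 5 vertices: among 6 vertices, one
of them has three edges of the same colour, `j` say, to `y1, y2, y3`; these three have no
edge of colour `j` among them, and none of colour `i`, so they form a monochromatic triangle.
In particular `|N i v| ≤ 5`, since `i` does not occur inside `N i v`.
(b) Let `X ⊆ N i v` with `|X| = 4`. Inside `X` only `j` and `k` occur. Facts: (1) `X` has an edge of
colour `j` and one of colour `k` (no monochromatic triangle). (2) for `y ∈ N j v` and `x ∈ X` the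
triangle `v, x, y` is not rainbow, so `c x y ∈ {i, j}`; for `x, x' ∈ X` with `c x x' = k`
the triangle `x, x', y` is not rainbow, so `c x y = c x' y`. So if the graph of the
`k`-edges on `X` is connected then `c x y` is the same for all `x ∈ X`, and it is not `j`
(by (1) there is `x x'` of colour `j`, the triangle `x, x', y` would be monochromatic), so it
is `i`. The same for `y ∈ N k v` with the `j`-edges.
Type A: both the `j`-graph and the `k`-graph on `X` are connected. Then all edges
between `X` and `W = V \ N i v` (which contains `v`) have colour `i`, so colour `i` does not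
occur inside `W` (triangle with `x ∈ X`), so `|W| ≤ 5` by (a), but `|W| = 11 - |N i v| ≥ 6`.
Contradiction. Type A does not occur.
So one of the two graphs is not connected, say the `k`-graph (else exchange `j` and `k`):
`X = X1 ∪ X2`, disjoint and nonempty, all edges between them of colour `j`. If `|X1| = 1` then the
three elements of `X2` have no `j`-edges, hence are a `k`-triangle, contradiction; so
`X1 = {x1, x2}`, `X2 = {x3, x4}`, and `c x1 x2 = k`, `c x3 x4 = k` (otherwise a `j`-triangle).
(c) Then `N i v = X`: a further `x5 ∈ N i v` has `c x5 xr ∈ {j, k}`; if some `c x5 xr = j`, say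
`r = 1`, then `c x5 x3 = k = c x5 x4` (`x1 x3`, `x1 x4` have colour `j`) and `x5 x3 x4` is a
`k`-triangle; otherwise all are `k` and `x5 x1 x2` is a `k`-triangle. Contradiction. So
`|N i v| ≤ 4` for all `i` and `v` (if `|N i v| ≥ 5` take any four of them and apply this).
(d) Some `N i v` has at least 4 elements (`10 > 9`), so exactly 4; let `X = N i v = {x1, .., x4}`
as in (b), `x1 x2` and `x3 x4` of colour `k`, the other four edges of colour `j`. The `j`-graph on
`X` is connected. For `y ∉ X`: `y = v` has `c x1 y = i`; `y ∈ N k v` has `c x1 y = i` by (2);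
`y ∈ N j v` has `c x1 y ∈ {i, j}`. So `N k x1 = {x2}` has one element, while
`|N i x1| ≤ 4` and `|N j x1| ≤ 4`, and the sum is `≤ 9 < 10`. Contradiction. -/
def S_K3U : Prop :=
  ∀ (V : Type) [Fintype V] [DecidableEq V] (c : V → V → ZMod 3), IsSym c →
    11 ≤ Fintype.card V → ∃ x y z : V, x ≠ y ∧ y ≠ z ∧ x ≠ z ∧ c x y + c y z + c x z = 0

/-- TEN VERTICES. Two copies of the colouring of `K_5` with colours `1` (pentagon) and `2`
(pentagram), and `0` between the copies: a triangle inside a copy has colours `1, 1, 2` or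
`1, 2, 2`, sum `1` or `2`; a triangle with two vertices in one copy has colours `0, 0, c` with
`c ≠ 0`. For `i, j : Fin 10` in the same half (`i / 5 = j / 5`) let `d = (i - j) mod 5`, colour
`1` if `d ∈ {1, 4}` and `2` otherwise. `decide` should work. -/
def S_K3L : Prop :=
  ∃ c : Fin 10 → Fin 10 → ZMod 3, IsSym c ∧
    ∀ x y z : Fin 10, x ≠ y → y ≠ z → x ≠ z → c x y + c y z + c x z ≠ 0

/-- CORE. Graphs without isolated vertices. Let `n = card α`, `card V = n + 7`. If `c` is flat on some `W`
with at least `n + 2` (and at least `3`) elements, use S_ADD and S_EGZ (*). If `n = 0` any map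
works (`S = 2 * 0`), so `n ≥ 1`, so `n ≥ 2` (no isolated vertex).
(1) `G = ⊤` (all different vertices adjacent): `Deg3` is `n (n - 1) = 0`, so `n ≠ 2`; `n ≠ 3` by
assumption, so `n ≥ 4` and S_KTOP gives `s` with `s.card = n`, `F c s = 0`; take a bijection from `α`
to `s` and S_FT.
(2) Otherwise there are `u0 ≠ v0` not adjacent. If there are `u ≠ v`, not adjacent, `w1` with
`u ~ w1`, `v ≁ w1`, then `v` has a neighbour `w2` and S_C1 applies. So assume: (**) `u ≠ v` not
adjacent implies `N(u) = N(v)` (apply the previous sentence to `(u, v)` and `(v, u)`).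
(3) If there are `u ≠ v` not adjacent and `w1 ≠ w2` with `u ~ w1`, `u ~ w2` (so also
`v ~ w1`, `v ~ w2`): `n ≥ 4`. If `n = 4` then `α = {u, v, w1, w2}` and the sum of the degrees
is `8` or `10`, not divisible by `3`, contradiction. So there is a fifth vertex `m`. If
`u ~ m` then `v ~ m` by (**). If `u ≁ m` then `N(m) = N(u)` by (**), so `m ~ w1`, `m ~ w2`, and
`v ≁ m` (`v ~ m` would give `v ∈ N(m) = N(u)`). So the hypotheses of S_PP hold: either
`NZ G c` fails and we are done, or PP holds, and S_C2 gives `W`, use (*).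
(4) Otherwise all non-adjacent pairs have exactly one common neighbour: `N(u0) = N(v0) = {w}`
(`u0` has a neighbour, and only one by the negation of (3)). Then `G` is the star with centre
`w`: every `a ∉ {u0, w}` is not adjacent to `u0`, so `N(a) = N(u0) = {w}`; and
`N(u0) = {w}`. Use S_STAR. -/
def S_CORE : Prop :=
  ∀ (α V : Type) [Fintype α] [DecidableEq α] [Fintype V] [DecidableEq V] (G : SimpleGraph α)
    [DecidableRel G.Adj] (c : V → V → ZMod 3), IsSym c → Deg3 G →
    (∀ a : α, ∃ b : α, G.Adj a b) → Fintype.card V = Fintype.card α + 7 →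
    ¬ (Fintype.card α = 3 ∧ ∀ a b : α, a ≠ b → G.Adj a b) →
    ∃ φ : α → V, Function.Injective φ ∧ S G c φ = 0

/-- ISOLATED VERTICES. Let `α' = {a // ∃ b, G.Adj a b}` and `G'` the induced graph
(`G.comap Subtype.val`, i.e. `G.induce`). `Deg3 G'` follows from `Deg3 G` (terms of isolated vertices are
zero). Let `k = card α' ≤ n = card α`.
If not (`k = 3` and `G'` complete): choose a subset `V'` of `V` with `k + 7` elements
(`k + 7 ≤ n + 7 ≤ card V`), apply S_CORE to `G'` and the restriction of `c` to the subtype `V'`;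
this gives an injective `ψ : α' → V` with weight zero. Extend `ψ` to an injective map
`α → V` (S_EXT with `A` the set of non-isolated vertices and `R` the complement of the image;
`n ≤ k + (card V - k)`). The weight does not change (only adjacent pairs count).
If `k = 3` and `G'` is complete: then `n ≥ 4` (if `n = 3` there are no isolated vertices
and `G` is complete on three vertices, excluded), so `card V ≥ 11` and S_K3U gives different
`x, y, z` with `c x y + c y z + c x z = 0`. Send the three non-isolated vertices to `x, y, z`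
and extend as before; the weight is `2 * 2 * (c x y + c y z + c x z) = 0`. -/
def S_RED : Prop :=
  ∀ (α V : Type) [Fintype α] [DecidableEq α] [Fintype V] [DecidableEq V] (G : SimpleGraph α)
    [DecidableRel G.Adj] (c : V → V → ZMod 3), IsSym c → Deg3 G →
    Fintype.card α + 7 ≤ Fintype.card V →
    ¬ (Fintype.card α = 3 ∧ ∀ a b : α, a ≠ b → G.Adj a b) →
    ∃ φ : α → V, Function.Injective φ ∧ S G c φ = 0

/-- BRIDGE to edge sets. Both sides: sum over ordered adjacent pairs is twice the sum over
`edgeFinset` (each edge has two darts; e.g. `SimpleGraph.Dart` with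
`SimpleGraph.dart_edge_fiber_card`, or `Finset.sum_comp`/fibres of `(a, b) ↦ s(a, b)`). With
`c x y = f s(x, y)`: `S G c φ = 2 * 2 * ∑ e ∈ edgeFinset, f (e.map φ) = ∑ ...`; with constant
`1`: `Deg3 G` iff `2 * e(G) = 0` in `ZMod 3` iff `3 ∣ e(G)`. -/
def S_BRI : Prop :=
  ∀ (α V : Type) [Fintype α] [DecidableEq α] (G : SimpleGraph α) [DecidableRel G.Adj],
    (Deg3 G ↔ 3 ∣ G.edgeFinset.card) ∧
    ∀ (f : Sym2 V → ZMod 3) (φ : α → V),
      S G (fun x y => f s(x, y)) φ = ∑ e ∈ G.edgeFinset, f (e.map φ)

/-- THE THEOREM. Let `P R` be the property `0 < R` and for all `N ≥ R` and all `f` there is a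
zero-sum copy. (1) `G` not the complete graph on three vertices: `P (n + 7)` by S_RED and
S_BRI; so the least element exists (`Nat.find`) and is `≤ n + 7 < n + 8`; and `G ≃g ⊤` on
`Fin 3` is impossible (it would give `n = 3` and `G` complete). (2) `n = 3` and `G`
complete: the least element is `11 = n + 8`: `P 11` by S_K3U (the weight of
`φ = ![x, y, z]` is `c x y + c y z + c x z`), and `P R` with `R ≤ 10` fails for `N = 10` by
S_K3L (`f` is the lift of `c` to `Sym2`). -/
def S_FINAL : Prop :=
  ∀ (n : ℕ) (G : SimpleGraph (Fin n)) [DecidableRel G.Adj], 3 ∣ G.edgeFinset.card →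
    ∃ R : ℕ, IsLeast {R : ℕ | 0 < R ∧ ∀ N : ℕ, R ≤ N → ∀ f : Sym2 (Fin N) → ZMod 3,
        ∃ φ : Fin n ↪ Fin N, ∑ e ∈ G.edgeFinset, f (e.map φ) = 0} R ∧
      R ≤ n + 8 ∧ (R = n + 8 ↔ Nonempty (G ≃g (⊤ : SimpleGraph (Fin 3))))

end Pool.Agent.Q54.ZR
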